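import Pool.Agent.Lib.MP_b466f1_co.Main

set_option autoImplicit false

namespace Pool.Agent.Results.MP_b466f1_co.Disproof

open Pool.Agent.Lib.MP_b466f1_co

theorem result :
    ∃ (m : ℕ) (H : Fin m → Fin m → Prop), IsOriented H ∧
      (∃ r k : ℕ, 1 ≤ r ∧ 1 ≤ k ∧ Contains (Ftour r) H ∧ Contains (cyclePow (2 * k + 1) k) H) ∧
      ¬ Turanable H :=
  ⟨27, HH, HH_oriented, ⟨3, 13, by omega, by omega, HH_F, HH_C⟩, not_turanable⟩

end Pool.Agent.Results.MP_b466f1_co.Disproof
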